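import Pool.Agent.TH625.Two

/-!
A compact connected symmetric space whose two-number is smaller than its total mod 2 Betti number.

`M` is the quotient of the product `S³ × S³ × S³` of three round spheres by the group of sign
changes `(x, y, z) ↦ (± x, ± y, ± z)` with an even number of minus signs. By the map
`(x, y, z) ↦ (x, y, x z y)` of unit quaternions it is homeomorphic to the product
`ℝP³ × ℝP³ × S³`, whose product metric has two-number `32`; as the two-number of any compact
symmetric space is at most its total mod 2 Betti number, the latter is at least `32`.
Two antipodal points of `M` are parallel in all three coordinates, or parallel in exactly one and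
orthogonal in the two others, and this gives two-number `8`.
-/

set_option autoImplicit false

open scoped Manifold ContDiff
open Bundle
open Pool.Agent.Helper381 Pool.Agent.TH625

namespace Pool.Agent.Results.MP_efd99a_gt.TwoNumberFails

/-- There is a compact connected Riemannian symmetric space `M` with two-number `8` and total
mod 2 Betti number at least `32`. -/
theorem result : ∃ (E : Type) (_ : NormedAddCommGroup E) (_ : NormedSpace ℝ E)
    (_ : FiniteDimensional ℝ E) (M : Type) (_ : MetricSpace M) (_ : CompactSpace M)
    (_ : ConnectedSpace M) (_ : ChartedSpace E M) (_ : IsManifold 𝓘(ℝ, E) ∞ M)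
    (_ : RiemannianBundle (fun x : M => TangentSpace 𝓘(ℝ, E) x))
    (_ : IsContMDiffRiemannianBundle 𝓘(ℝ, E) ∞ E (fun x : M => TangentSpace 𝓘(ℝ, E) x))
    (_ : IsRiemannianManifold 𝓘(ℝ, E) M),
    IsSymmetric M ∧ twoNumber M = 8 ∧ 32 ≤ totalBetti (ZMod 2) M :=
  ⟨E9, inferInstance, inferInstance, inferInstance, MQ Γ1, inferInstance, inferInstance,
    inferInstance, inferInstance, inferInstance, inferInstance, inferInstance, inferInstance,
    isSymmetric_MQ Γ1, main⟩

end Pool.Agent.Results.MP_efd99a_gt.TwoNumberFails
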